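import Pool.Agent.W534.FS4
import Pool.Agent.Y146.HW.EndL

/-!
# Correspondences on a surface and the decomposition of the second cohomology
-/

set_option autoImplicit false

open Polynomial Module W534.FS

namespace H61Eq

variable {p a : ℕ} {K V : Type*} [Field K] [AddCommGroup V] [Module K V] [Module.Finite K V]

/-- A family of commuting correspondences (with coefficients in `K`) of the surface with itself which
are defined over the ground field, acting on `V = H²`; `Tt j` is the transpose of `T j`. -/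
structure Correspondences (S : SurfaceH2 p a K V) (J : Type*) where
  /-- the correspondences -/
  T : J → Module.End K V
  /-- the transposed correspondences -/
  Tt : J → Module.End K V
  /-- they are defined over the ground field -/
  T_F : ∀ j, Commute (T j) S.F
  /-- they commute -/
  T_T : ∀ i j, Commute (T i) (T j)
  /-- they are diagonalizable -/
  diag : ∀ j, (T j).IsSemisimple
  /-- transposition -/
  adj : ∀ j x y, S.B (T j x) y = S.B x (Tt j y)
  /-- correspondences map divisors to divisors -/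
  T_N : ∀ j, ∀ x ∈ S.N, T j x ∈ S.N
  /-- correspondences map divisors to divisors -/
  Tt_N : ∀ j, ∀ x ∈ S.N, Tt j x ∈ S.N

namespace Correspondences

variable {S : SurfaceH2 p a K V} {J : Type*} (C : Correspondences S J)

/-- the part `V_χ` of `V = H²` on which every `T j` is the multiplication with `χ j` -/
def part (χ : J → K) : Submodule K V := ⨅ j, (C.T j).eigenspace (χ j)

/-- the multiplicity of the eigenvalue `α` of the Frobenius on `V_χ` -/
noncomputable def mult (χ : J → K) (α : K) : ℕ :=
  finrank K (C.part χ ⊓ S.F.maxGenEigenspace α : Submodule K V)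

/-- the dimension of the space of the divisor classes in `V_χ` on which the Frobenius is the
multiplication with `α` -/
noncomputable def rk (χ : J → K) (α : K) : ℕ :=
  finrank K (C.part χ ⊓ S.NS α : Submodule K V)

/-- `V_χ` is orthogonal to all the other parts, so that it is self-dual under the cup product -/
def SelfDual (χ : J → K) : Prop :=
  ∀ χ', χ' ≠ χ → ∀ x ∈ C.part χ, ∀ y ∈ C.part χ', S.B x y = 0

theorem mem_part {χ : J → K} {x : V} : x ∈ C.part χ ↔ ∀ j, C.T j x = χ j • x := by
  unfold part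
  simp only [Submodule.mem_iInf, Module.End.mem_eigenspace_iff]

theorem F_part {χ : J → K} {x : V} (hx : x ∈ C.part χ) : S.F x ∈ C.part χ := by
  rw [mem_part] at hx ⊢
  intro j
  have := congrArg (fun f => f x) (C.T_F j).eq
  simp only [Module.End.mul_apply] at this
  rw [this, hx j, map_smul]

theorem maxGen_T (j : J) (c : K) : (C.T j).maxGenEigenspace c = (C.T j).eigenspace c :=
  (C.diag j).isFinitelySemisimple.maxGenEigenspace_eq_eigenspace c

theorem top [IsAlgClosed K] : ⨆ χ : J → K, C.part χ = ⊤ := by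
  have h := Module.End.iSup_iInf_maxGenEigenspace_eq_top_of_iSup_maxGenEigenspace_eq_top_of_commute
    C.T (fun i j _ => C.T_T i j) (fun i => Module.End.iSup_maxGenEigenspace_eq_top (C.T i))
  rw [← h]
  unfold part
  simp only [C.maxGen_T]

theorem indep : iSupIndep C.part := by
  have h := Module.End.independent_iInf_maxGenEigenspace_of_forall_mapsTo C.T
    (fun i j φ => Module.End.mapsTo_maxGenEigenspace_of_comm (C.T_T j i) φ)
  simp only [C.maxGen_T] at h
  exact h

/-- the decomposition of a vector -/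
theorem decomp [IsAlgClosed K] (x : V) :
    ∃ (s : Finset (J → K)) (f : (J → K) → V), (∀ χ, f χ ∈ C.part χ) ∧ (∀ χ ∉ s, f χ = 0) ∧
      ∑ χ ∈ s, f χ = x := by
  have hx : x ∈ ⨆ χ : J → K, C.part χ := by rw [C.top]; trivial
  obtain ⟨f, hf, hsum⟩ := (Submodule.mem_iSup_iff_exists_finsupp _ _).1 hx
  exact ⟨f.support, f, hf, fun χ h => Finsupp.notMem_support_iff.1 h, hsum⟩

/-- Jordan blocks can be found in the parts -/
theorem block [IsAlgClosed K] {α : K}
    (h : ∀ χ, ∀ y ∈ C.part χ, ∀ v ∈ C.part χ, S.F y = α • y + v → S.F v = α • v → v = 0) :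
    S.SemisimpleAt α := by
  classical
  apply eig_eq
  intro y v hy hv
  obtain ⟨s, f, hf, hf0, hfs⟩ := C.decomp y
  obtain ⟨t, g, hg, hg0, hgt⟩ := C.decomp v
  have hfs' : ∑ χ ∈ s ∪ t, f χ = y := by
    rw [← hfs]
    symm
    apply Finset.sum_subset Finset.subset_union_left
    intro χ _ h1
    exact hf0 χ h1
  have hgt' : ∑ χ ∈ s ∪ t, g χ = v := by
    rw [← hgt]
    symm
    apply Finset.sum_subset Finset.subset_union_right
    intro χ _ h1
    exact hg0 χ h1
  have hind := (iSupIndep_iff_finsetSum_eq_zero_imp_eq_zero _).1 C.indep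
  have h1 : ∀ χ ∈ s ∪ t, S.F (f χ) - α • f χ - g χ = 0 := by
    apply hind (s ∪ t) (fun χ => S.F (f χ) - α • f χ - g χ)
    · intro χ _
      exact Submodule.sub_mem _ (Submodule.sub_mem _ (C.F_part (hf χ))
        (Submodule.smul_mem _ _ (hf χ))) (hg χ)
    · rw [Finset.sum_sub_distrib, Finset.sum_sub_distrib, ← map_sum, ← Finset.smul_sum, hfs',
        hgt', hy]
      abel
  have h2 : ∀ χ ∈ s ∪ t, S.F (g χ) - α • g χ = 0 := by
    apply hind (s ∪ t) (fun χ => S.F (g χ) - α • g χ)
    · intro χ _
      exact Submodule.sub_mem _ (C.F_part (hg χ)) (Submodule.smul_mem _ _ (hg χ))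
    · rw [Finset.sum_sub_distrib, ← map_sum, ← Finset.smul_sum, hgt', hv, sub_self]
  rw [← hgt']
  apply Finset.sum_eq_zero
  intro χ hχ
  apply h χ (f χ) (hf χ) (g χ) (hg χ)
  · have := h1 χ hχ
    rw [sub_sub, sub_eq_zero] at this
    exact this
  · exact sub_eq_zero.1 (h2 χ hχ)

/-- the Frobenius on `V_χ` -/
noncomputable def Fr (χ : J → K) : Module.End K (C.part χ) :=
  S.F.restrict fun _ hx => C.F_part hx

theorem Fr_apply (χ : J → K) (x : C.part χ) : ((C.Fr χ x : C.part χ) : V) = S.F x := rfl

theorem map_maxGen (χ : J → K) (α : K) :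
    ((C.Fr χ).maxGenEigenspace α).map (C.part χ).subtype = C.part χ ⊓ S.F.maxGenEigenspace α := by
  have := (C.part χ).inf_genEigenspace S.F (fun x hx => C.F_part hx) (μ := α) (k := ⊤)
  exact this.symm

theorem mult_eq (χ : J → K) (α : K) :
    C.mult χ α = finrank K ((C.Fr χ).maxGenEigenspace α) := by
  unfold mult
  rw [← C.map_maxGen]
  exact (LinearEquiv.finrank_eq
    (Submodule.equivMapOfInjective _ (C.part χ).injective_subtype _)).symm

theorem mult_charpoly (χ : J → K) (α : K) :
    C.mult χ α = rootMultiplicity α (C.Fr χ).charpoly := by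
  rw [C.mult_eq, LinearMap.finrank_maxGenEigenspace_eq]

theorem mult_le (χ : J → K) (α : K) : C.mult χ α ≤ S.mult α :=
  Submodule.finrank_mono inf_le_right

/-- the powers of `F - α` on `V_χ` -/
theorem kills (χ : J → K) {α : K} {g : ℕ} (hg : C.mult χ α ≤ g) {x : V}
    (hx : x ∈ C.part χ ⊓ S.F.maxGenEigenspace α) :
    ((S.F - α • (1 : Module.End K V)) ^ g) x = 0 := by
  rw [C.mult_eq] at hg
  rw [← C.map_maxGen] at hx
  obtain ⟨y, hy, rfl⟩ := hx
  have h := Y146.HW.pow_kills (C.Fr χ) α hg y hy
  have key : ∀ (n : ℕ) (z : C.part χ),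
      ((((C.Fr χ - α • (1 : Module.End K (C.part χ))) ^ n) z : C.part χ) : V) =
        ((S.F - α • (1 : Module.End K V)) ^ n) z := by
    intro n
    induction n with
    | zero => intro z; simp
    | succ n ih =>
      intro z
      rw [pow_succ, Module.End.mul_apply, ih, pow_succ, Module.End.mul_apply]
      congr 1
  have h2 := key g y
  rw [h] at h2
  exact h2.symm

/-- the generalised eigenspace is killed by the power `g` of `F - α` if the multiplicities on the
parts are at most `g` -/
theorem kills_all [IsAlgClosed K] {α : K} {g : ℕ} (hg : ∀ χ, C.mult χ α ≤ g) {x : V}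
    (hx : x ∈ S.F.maxGenEigenspace α) : ((S.F - α • (1 : Module.End K V)) ^ g) x = 0 := by
  classical
  obtain ⟨s, f, hf, hf0, hfs⟩ := C.decomp x
  have hind := (iSupIndep_iff_finsetSum_eq_zero_imp_eq_zero _).1 C.indep
  rw [Module.End.mem_maxGenEigenspace] at hx
  obtain ⟨n, hn⟩ := hx
  have hst : ∀ (n : ℕ) (χ : J → K) (z : V), z ∈ C.part χ →
      ((S.F - α • (1 : Module.End K V)) ^ n) z ∈ C.part χ := by
    intro n χ
    induction n with
    | zero => intro z hz; simpa using hz
    | succ n ih =>
      intro z hz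
      rw [pow_succ, Module.End.mul_apply]
      apply ih
      rw [LinearMap.sub_apply]
      exact Submodule.sub_mem _ (C.F_part hz) (by simpa using Submodule.smul_mem _ α hz)
  have h1 : ∀ χ ∈ s, ((S.F - α • (1 : Module.End K V)) ^ n) (f χ) = 0 := by
    apply hind s (fun χ => ((S.F - α • (1 : Module.End K V)) ^ n) (f χ))
    · intro χ _
      exact hst n χ _ (hf χ)
    · rw [← map_sum, hfs, hn]
  rw [← hfs, map_sum]
  apply Finset.sum_eq_zero
  intro χ hχ
  apply C.kills χ (hg χ)
  refine ⟨hf χ, ?_⟩
  exact Module.End.mem_maxGenEigenspace _ _ _ |>.2 ⟨n, h1 χ hχ⟩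

/-- multiplicity at most one on all the parts: no Jordan blocks -/
theorem ss_of_mult [IsAlgClosed K] {α : K} (h : ∀ χ, C.mult χ α ≤ 1) : S.SemisimpleAt α := by
  apply C.block
  intro χ y hy v hv h1 h2
  have hy' : y ∈ C.part χ ⊓ S.F.maxGenEigenspace α := by
    refine ⟨hy, Module.End.mem_maxGenEigenspace _ _ _ |>.2 ⟨2, ?_⟩⟩
    have e1 : (S.F - α • (1 : Module.End K V)) y = v := by
      rw [LinearMap.sub_apply, h1]; simp
    have e2 : (S.F - α • (1 : Module.End K V)) v = 0 := by
      rw [LinearMap.sub_apply, h2]; simp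
    rw [pow_two, Module.End.mul_apply, e1, e2]
  have h3 := C.kills χ (h χ) hy'
  rw [pow_one, LinearMap.sub_apply, h1] at h3
  simpa using h3

/-- the component in `N` and its complement of a vector in `V_χ` -/
theorem split [CharZero K] {χ : J → K} {y : V} (hy : y ∈ C.part χ) :
    ∃ n ∈ S.N ⊓ C.part χ, ∃ w ∈ S.B.orthogonal S.N ⊓ C.part χ, n + w = y := by
  obtain ⟨n, hn, w, hw, hnw⟩ : ∃ n ∈ S.N, ∃ w ∈ S.B.orthogonal S.N, n + w = y := by
    have : y ∈ S.N ⊔ S.B.orthogonal S.N := by rw [S.compl.sup_eq_top]; trivial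
    exact Submodule.mem_sup.1 this
  have key : ∀ j, C.T j n = χ j • n ∧ C.T j w = χ j • w := by
    intro j
    have h1 : C.T j n - χ j • n ∈ S.N := S.N.sub_mem (C.T_N j n hn) (S.N.smul_mem _ hn)
    have h2 : C.T j w - χ j • w ∈ S.B.orthogonal S.N := by
      apply Submodule.sub_mem _ _ (Submodule.smul_mem _ _ hw)
      intro x hx
      change S.B x (C.T j w) = 0
      rw [S.B_symm, C.adj, S.B_symm]
      exact hw _ (C.Tt_N j x hx)
    have h3 : (C.T j n - χ j • n) + (C.T j w - χ j • w) = 0 := by
      have h4 := (C.mem_part.1 hy) j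
      rw [← hnw, map_add, smul_add] at h4
      rw [← sub_eq_zero] at h4
      rw [← h4]
      abel
    have h5 : C.T j n - χ j • n = 0 := by
      apply Submodule.disjoint_def.1 S.compl.disjoint _ h1
      rw [eq_neg_of_add_eq_zero_left h3]
      exact Submodule.neg_mem _ h2
    rw [h5, zero_add] at h3
    exact ⟨sub_eq_zero.1 h5, sub_eq_zero.1 h3⟩
  exact ⟨n, ⟨hn, C.mem_part.2 fun j => (key j).1⟩, w, ⟨hw, C.mem_part.2 fun j => (key j).2⟩, hnw⟩

/-- a Jordan block in `V_χ` lives in the orthogonal complement of `N` in `V_χ` -/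
theorem block_orth [CharZero K] (hp : p.Prime) {α : K} (hα : IsTate p a α) {χ : J → K} {y v : V}
    (hyχ : y ∈ C.part χ) (hy : S.F y = α • y + v) (hv : S.F v = α • v) :
    v ∈ S.B.orthogonal S.N ∧ ∃ w ∈ S.B.orthogonal S.N ⊓ C.part χ, S.F w = α • w + v := by
  obtain ⟨hvo, -⟩ := S.block_orth hp hα hy hv
  obtain ⟨n, hn, w, hw, hnw⟩ := C.split hyχ
  refine ⟨hvo, w, hw, ?_⟩
  have h1 : S.F n - α • n ∈ S.N := S.N.sub_mem (S.N_stable n hn.1) (S.N.smul_mem _ hn.1)
  have h2 : S.F w - α • w - v ∈ S.B.orthogonal S.N :=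
    Submodule.sub_mem _ (Submodule.sub_mem _ (S.orth_stable hp hw.1)
      (Submodule.smul_mem _ _ hw.1)) hvo
  have h3 : (S.F n - α • n) + (S.F w - α • w - v) = 0 := by
    have : (S.F n - α • n) + (S.F w - α • w - v) = S.F (n + w) - α • (n + w) - v := by
      rw [map_add, smul_add]; abel
    rw [this, hnw, hy]; abel
  have h4 : S.F n - α • n = 0 := by
    apply Submodule.disjoint_def.1 S.compl.disjoint _ h1
    rw [eq_neg_of_add_eq_zero_left h3]
    exact Submodule.neg_mem _ h2
  rw [h4, zero_add, sub_sub, sub_eq_zero] at h3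
  exact h3

/-- a nontrivial Jordan block takes two dimensions besides the divisor classes -/
theorem two_more [CharZero K] {α : K} {χ : J → K} {w v : V}
    (hw : w ∈ S.B.orthogonal S.N ⊓ C.part χ) (hvo : v ∈ S.B.orthogonal S.N)
    (hvχ : v ∈ C.part χ) (h1 : S.F w = α • w + v) (h2 : S.F v = α • v) (hv0 : v ≠ 0) :
    Disjoint (C.part χ ⊓ S.NS α) (Submodule.span K (Set.range ![w, v])) ∧
    (C.part χ ⊓ S.NS α) ⊔ Submodule.span K (Set.range ![w, v]) ≤
      C.part χ ⊓ S.F.maxGenEigenspace α ∧
    finrank K ((C.part χ ⊓ S.NS α) ⊔ Submodule.span K (Set.range ![w, v]) : Submodule K V) =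
      C.rk χ α + 2 := by
  have hli : LinearIndependent K ![w, v] := by
    rw [LinearIndependent.pair_iff]
    intro s t hst
    have h3 := congrArg S.F hst
    rw [map_add, map_smul, map_smul, h1, h2, map_zero] at h3
    have h4 : s • v = 0 := by
      have h5 : s • (α • w + v) + t • α • v - α • (s • w + t • v) = 0 := by
        rw [h3, hst, smul_zero, sub_zero]
      have h6 : s • (α • w + v) + t • α • v - α • (s • w + t • v) = s • v := by
        module
      rw [← h6]; exact h5
    have hs : s = 0 := (smul_eq_zero.1 h4).resolve_right hv0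
    rw [hs, zero_smul, zero_add] at hst
    exact ⟨hs, (smul_eq_zero.1 hst).resolve_right hv0⟩
  set D : Submodule K V := Submodule.span K (Set.range ![w, v]) with hD
  have hDfin : finrank K D = 2 := by
    rw [hD, finrank_span_eq_card hli]; simp
  have hDle : D ≤ S.B.orthogonal S.N := by
    rw [hD, Submodule.span_le]
    rintro _ ⟨i, rfl⟩
    fin_cases i
    · exact hw.1
    · exact hvo
  have hDχ : D ≤ C.part χ := by
    rw [hD, Submodule.span_le]
    rintro _ ⟨i, rfl⟩
    fin_cases i
    · exact hw.2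
    · exact hvχ
  have hdisj : Disjoint (C.part χ ⊓ S.NS α) D :=
    S.compl.disjoint.mono (inf_le_right.trans inf_le_left) hDle
  have hDg : D ≤ S.F.maxGenEigenspace α := by
    rw [hD, Submodule.span_le]
    rintro _ ⟨i, rfl⟩
    have hv1 : (S.F - α • (1 : Module.End K V)) v = 0 := by
      rw [LinearMap.sub_apply, h2]; simp
    have hw1 : (S.F - α • (1 : Module.End K V)) w = v := by
      rw [LinearMap.sub_apply, h1]; simp
    fin_cases i
    · refine Module.End.mem_maxGenEigenspace _ _ _ |>.2 ⟨2, ?_⟩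
      rw [pow_two]
      change (S.F - α • (1 : Module.End K V)) ((S.F - α • (1 : Module.End K V)) w) = 0
      rw [hw1, hv1]
    · refine Module.End.mem_maxGenEigenspace _ _ _ |>.2 ⟨1, ?_⟩
      rw [pow_one]
      exact hv1
  refine ⟨hdisj, sup_le (le_inf inf_le_left ?_) (le_inf hDχ hDg), ?_⟩
  · intro x hx
    have := Module.End.mem_eigenspace_iff.1 hx.2.2
    rw [Module.End.mem_maxGenEigenspace]
    refine ⟨1, ?_⟩
    rw [pow_one, LinearMap.sub_apply, this]
    simp
  · have h3 := Submodule.finrank_sup_add_finrank_inf_eq (C.part χ ⊓ S.NS α) D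
    rw [hdisj.eq_bot, finrank_bot, add_zero, hDfin] at h3
    exact h3

/-- the Tate eigenvalues, one dimension besides the divisor classes -/
theorem no_block_one [CharZero K] (hp : p.Prime) {α : K} (hα : IsTate p a α) {χ : J → K}
    (hd : C.mult χ α ≤ C.rk χ α + 1) {y v : V} (hyχ : y ∈ C.part χ) (hvχ : v ∈ C.part χ)
    (hy : S.F y = α • y + v) (hv : S.F v = α • v) : v = 0 := by
  by_contra hv0
  obtain ⟨hvo, w, hw, h1⟩ := C.block_orth hp hα hyχ hy hv
  obtain ⟨-, h2, h3⟩ := C.two_more hw hvo hvχ h1 hv hv0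
  have h4 := Submodule.finrank_mono h2
  rw [h3] at h4
  unfold mult at hd
  omega

/-- the eigenvalues `± q` on a self-dual part, two dimensions besides the divisor classes -/
theorem no_block_two [CharZero K] [IsAlgClosed K] (hp : p.Prime) {α : K}
    (hα : IsTate p a α) (hα2 : α ^ 2 = ((p : K) ^ a) ^ 2) {χ : J → K} (hχ : C.SelfDual χ)
    (hd : C.mult χ α ≤ C.rk χ α + 2) {y v : V} (hyχ : y ∈ C.part χ) (hvχ : v ∈ C.part χ)
    (hy : S.F y = α • y + v) (hv : S.F v = α • v) : v = 0 := by
  classical
  by_contra hv0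
  have hq : ((p : K) ^ a) ≠ 0 := pow_ne_zero _ (by exact_mod_cast hp.ne_zero)
  have hα0 : α ≠ 0 := by
    intro h
    rw [h, zero_pow two_ne_zero] at hα2
    exact pow_ne_zero _ hq hα2.symm
  obtain ⟨hvo, w, hw, h1⟩ := C.block_orth hp hα hyχ hy hv
  obtain ⟨-, h2, h3⟩ := C.two_more hw hvo hvχ h1 hv hv0
  have heq : (C.part χ ⊓ S.NS α) ⊔ Submodule.span K (Set.range ![w, v]) =
      C.part χ ⊓ S.F.maxGenEigenspace α := by
    apply Submodule.eq_of_le_of_finrank_le h2
    rw [h3]
    exact hd
  -- `v` is orthogonal to `v` and `w`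
  have hwv : S.B w v = 0 := by
    have e := S.B_F w w
    have e' := S.B_F w v
    rw [h1, hv, map_smul, map_add, LinearMap.add_apply, map_smul, LinearMap.smul_apply,
      smul_eq_mul, smul_eq_mul, ← hα2] at e'
    have hvv : S.B v v = 0 := by
      have : α * S.B v v = 0 := by linear_combination e'
      exact (mul_eq_zero.1 this).resolve_left hα0
    rw [h1] at e
    simp only [map_add, LinearMap.add_apply, map_smul, LinearMap.smul_apply, smul_eq_mul] at e
    rw [hvv, S.B_symm v w, ← hα2] at e
    have h4 : (2 * α) * S.B w v = 0 := by linear_combination e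
    exact (mul_eq_zero.1 h4).resolve_left (mul_ne_zero two_ne_zero hα0)
  have hvv : S.B v v = 0 := by
    have e' := S.B_F w v
    rw [h1, hv, map_smul, map_add, LinearMap.add_apply, map_smul, LinearMap.smul_apply,
      smul_eq_mul, smul_eq_mul, ← hα2] at e'
    have : α * S.B v v = 0 := by linear_combination e'
    exact (mul_eq_zero.1 this).resolve_left hα0
  -- `v` is orthogonal to the generalised eigenspace
  have hgen : ∀ x ∈ C.part χ ⊓ S.F.maxGenEigenspace α, S.B v x = 0 := by
    rw [← heq]
    intro x hx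
    obtain ⟨x1, hx1, x2, hx2, rfl⟩ := Submodule.mem_sup.1 hx
    rw [map_add]
    have e1 : S.B v x1 = 0 := by
      rw [S.B_symm]
      exact hvo x1 hx1.2.1
    have e2 : S.B v x2 = 0 := by
      have : Submodule.span K (Set.range ![w, v]) ≤ LinearMap.ker (S.B v) := by
        rw [Submodule.span_le]
        rintro _ ⟨i, rfl⟩
        fin_cases i
        · change S.B v w = 0
          rw [S.B_symm]; exact hwv
        · exact hvv
      exact this hx2
    rw [e1, e2, add_zero]
  -- `v` is orthogonal to the image of `F - α`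
  have himg : ∀ x, S.B v ((S.F - α • (1 : Module.End K V)) x) = 0 := by
    intro x
    have e := S.B_F v x
    rw [hv, map_smul, LinearMap.smul_apply, smul_eq_mul, ← hα2] at e
    have e2 : S.B v (S.F x) = α * S.B v x := by
      apply mul_left_cancel₀ hα0
      rw [e]; ring
    rw [LinearMap.sub_apply, map_sub, e2]
    simp
  -- `v` is orthogonal to `V_χ`
  have hχv : ∀ x ∈ C.part χ, S.B v x = 0 := by
    obtain ⟨n, hn⟩ := (LinearMap.eventually_isCompl_ker_pow_range_pow
      (C.Fr χ - α • (1 : Module.End K (C.part χ)))).exists_forall_of_atTop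
    have hc := hn (n + 1) (by omega)
    have key : ∀ (n : ℕ) (z : C.part χ),
        ((((C.Fr χ - α • (1 : Module.End K (C.part χ))) ^ n) z : C.part χ) : V) =
          ((S.F - α • (1 : Module.End K V)) ^ n) z := by
      intro n
      induction n with
      | zero => intro z; simp
      | succ n ih =>
        intro z
        rw [pow_succ, Module.End.mul_apply, ih, pow_succ, Module.End.mul_apply]
        congr 1
    intro x hx
    have h5 : (⟨x, hx⟩ : C.part χ) ∈
        LinearMap.ker ((C.Fr χ - α • (1 : Module.End K (C.part χ))) ^ (n + 1)) ⊔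
        LinearMap.range ((C.Fr χ - α • (1 : Module.End K (C.part χ))) ^ (n + 1)) := by
      rw [hc.sup_eq_top]; trivial
    obtain ⟨z1, hz1, z2, hz2, hz⟩ := Submodule.mem_sup.1 h5
    have hx' : x = (z1 : V) + (z2 : V) := by
      have := congrArg Subtype.val hz
      exact this.symm
    rw [hx', map_add]
    have e1 : S.B v (z1 : V) = 0 := by
      apply hgen
      refine ⟨z1.2, Module.End.mem_maxGenEigenspace _ _ _ |>.2 ⟨n + 1, ?_⟩⟩
      rw [← key, LinearMap.mem_ker.1 hz1]
      rfl
    have e2 : S.B v (z2 : V) = 0 := by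
      obtain ⟨u, hu⟩ := hz2
      rw [← hu, key, pow_succ', Module.End.mul_apply]
      exact himg _
    rw [e1, e2, add_zero]
  apply hv0
  apply S.B_nondeg
  intro x
  obtain ⟨s, f, hf, hf0, hfs⟩ := C.decomp x
  rw [← hfs, map_sum]
  apply Finset.sum_eq_zero
  intro χ' _
  by_cases h : χ' = χ
  · apply hχv
    rw [← h]
    exact hf χ'
  · exact hχ χ' h v hvχ _ (hf χ')

end Correspondences

end H61Eq
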