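import Mathlib
import Pool.Agent.W534.FS2
import Pool.Agent.Y146.HW.EndL

/-!
# Commuting families of endomorphisms and Jordan blocks
-/

set_option autoImplicit false

open Polynomial Module

namespace H61Eq

variable {K V : Type*} [Field K] [AddCommGroup V] [Module K V]

/-- the common eigenspace of a family `T` -/
def cpart {J : Type*} (T : J → Module.End K V) (χ : J → K) : Submodule K V :=
  ⨅ j, (T j).eigenspace (χ j)

/-- the multiplicity of the eigenvalue `α` of `F` on a common eigenspace -/
noncomputable def cmult (F : Module.End K V) {J : Type*} (T : J → Module.End K V) (χ : J → K)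
    (α : K) : ℕ :=
  finrank K (cpart T χ ⊓ F.maxGenEigenspace α : Submodule K V)

section

variable [Module.Finite K V] {F : Module.End K V} {J : Type*} {T : J → Module.End K V}

omit [Module.Finite K V] in
theorem cmem {χ : J → K} {x : V} : x ∈ cpart T χ ↔ ∀ j, T j x = χ j • x := by
  unfold cpart
  simp only [Submodule.mem_iInf, Module.End.mem_eigenspace_iff]

omit [Module.Finite K V] in
theorem cstable (hF : ∀ j, Commute (T j) F) {χ : J → K} {x : V} (hx : x ∈ cpart T χ) :
    F x ∈ cpart T χ := by
  rw [cmem] at hx ⊢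
  intro j
  have := congrArg (fun f => f x) (hF j).eq
  simp only [Module.End.mul_apply] at this
  rw [this, hx j, map_smul]

theorem ctop [IsAlgClosed K] (hT : ∀ i j, Commute (T i) (T j)) (hd : ∀ j, (T j).IsSemisimple) :
    ⨆ χ : J → K, cpart T χ = ⊤ := by
  have h := Module.End.iSup_iInf_maxGenEigenspace_eq_top_of_iSup_maxGenEigenspace_eq_top_of_commute
    T (fun i j _ => hT i j) (fun i => Module.End.iSup_maxGenEigenspace_eq_top (T i))
  rw [← h]
  unfold cpart
  simp only [fun j c => (hd j).isFinitelySemisimple.maxGenEigenspace_eq_eigenspace c]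

omit [Module.Finite K V] in
theorem cindep (hT : ∀ i j, Commute (T i) (T j)) (hd : ∀ j, (T j).IsSemisimple) :
    iSupIndep (cpart T) := by
  have h := Module.End.independent_iInf_maxGenEigenspace_of_forall_mapsTo T
    (fun i j φ => Module.End.mapsTo_maxGenEigenspace_of_comm (hT j i) φ)
  simp only [fun j c => (hd j).isFinitelySemisimple.maxGenEigenspace_eq_eigenspace c] at h
  exact h

theorem cdecomp [IsAlgClosed K] (hT : ∀ i j, Commute (T i) (T j)) (hd : ∀ j, (T j).IsSemisimple)
    (x : V) : ∃ (s : Finset (J → K)) (f : (J → K) → V), (∀ χ, f χ ∈ cpart T χ) ∧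
      ∑ χ ∈ s, f χ = x := by
  have hx : x ∈ ⨆ χ : J → K, cpart T χ := by rw [ctop hT hd]; trivial
  obtain ⟨f, hf, hsum⟩ := (Submodule.mem_iSup_iff_exists_finsupp _ _).1 hx
  exact ⟨f.support, f, hf, hsum⟩

/-- the Jordan blocks on a common eigenspace -/
theorem ckills (hF : ∀ j, Commute (T j) F) (χ : J → K) {α : K} {g : ℕ}
    (hg : cmult F T χ α ≤ g) {x : V} (hx : x ∈ cpart T χ ⊓ F.maxGenEigenspace α) :
    ((F - α • (1 : Module.End K V)) ^ g) x = 0 := by
  set Fr : Module.End K (cpart T χ) := F.restrict fun _ hx => cstable hF hx with hFr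
  have hmap : (Fr.maxGenEigenspace α).map (cpart T χ).subtype =
      cpart T χ ⊓ F.maxGenEigenspace α :=
    ((cpart T χ).inf_genEigenspace F (fun x hx => cstable hF hx) (μ := α) (k := ⊤)).symm
  have hfr : finrank K (Fr.maxGenEigenspace α) ≤ g := by
    refine le_trans (le_of_eq ?_) hg
    unfold cmult
    rw [← hmap]
    exact (LinearEquiv.finrank_eq
      (Submodule.equivMapOfInjective _ (cpart T χ).injective_subtype _))
  rw [← hmap] at hx
  obtain ⟨y, hy, rfl⟩ := hx
  have h := Y146.HW.pow_kills Fr α hfr y hy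
  have key : ∀ (n : ℕ) (z : cpart T χ),
      ((((Fr - α • (1 : Module.End K (cpart T χ))) ^ n) z : cpart T χ) : V) =
        ((F - α • (1 : Module.End K V)) ^ n) z := by
    intro n
    induction n with
    | zero => intro z; simp
    | succ n ih =>
      intro z
      rw [pow_succ, Module.End.mul_apply, ih, pow_succ, Module.End.mul_apply]
      congr 1
  have h2 := key g y
  rw [h] at h2
  exact h2.symm

/-- the Jordan blocks -/
theorem ckills_all [IsAlgClosed K] (hF : ∀ j, Commute (T j) F) (hT : ∀ i j, Commute (T i) (T j))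
    (hd : ∀ j, (T j).IsSemisimple) {α : K} {g : ℕ} (hg : ∀ χ, cmult F T χ α ≤ g) {x : V}
    (hx : x ∈ F.maxGenEigenspace α) : ((F - α • (1 : Module.End K V)) ^ g) x = 0 := by
  classical
  obtain ⟨s, f, hf, hfs⟩ := cdecomp hT hd x
  have hind := (iSupIndep_iff_finsetSum_eq_zero_imp_eq_zero _).1 (cindep hT hd)
  rw [Module.End.mem_maxGenEigenspace] at hx
  obtain ⟨n, hn⟩ := hx
  have hst : ∀ (n : ℕ) (χ : J → K) (z : V), z ∈ cpart T χ →
      ((F - α • (1 : Module.End K V)) ^ n) z ∈ cpart T χ := by
    intro n χ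
    induction n with
    | zero => intro z hz; simpa using hz
    | succ n ih =>
      intro z hz
      rw [pow_succ, Module.End.mul_apply]
      apply ih
      rw [LinearMap.sub_apply]
      exact Submodule.sub_mem _ (cstable hF hz) (by simpa using Submodule.smul_mem _ α hz)
  have h1 : ∀ χ ∈ s, ((F - α • (1 : Module.End K V)) ^ n) (f χ) = 0 := by
    apply hind s (fun χ => ((F - α • (1 : Module.End K V)) ^ n) (f χ))
    · intro χ _
      exact hst n χ _ (hf χ)
    · rw [← map_sum, hfs, hn]
  rw [← hfs, map_sum]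
  apply Finset.sum_eq_zero
  intro χ hχ
  apply ckills hF χ (hg χ)
  exact ⟨hf χ, Module.End.mem_maxGenEigenspace _ _ _ |>.2 ⟨n, h1 χ hχ⟩⟩

/-- semisimplicity at `α` -/
theorem css [IsAlgClosed K] (hF : ∀ j, Commute (T j) F) (hT : ∀ i j, Commute (T i) (T j))
    (hd : ∀ j, (T j).IsSemisimple) {α : K} (hg : ∀ χ, cmult F T χ α ≤ 1) :
    F.maxGenEigenspace α = F.eigenspace α := by
  apply le_antisymm
  · intro x hx
    have h := ckills_all hF hT hd hg hx
    rw [pow_one, LinearMap.sub_apply] at h
    rw [Module.End.mem_eigenspace_iff]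
    rw [sub_eq_zero] at h
    simpa using h
  · exact (F.genEigenspace α).mono le_top

omit [Module.Finite K V] in
theorem cmult_bot {χ : J → K} (h : cpart T χ = ⊥) (α : K) : cmult F T χ α = 0 := by
  unfold cmult
  rw [h, bot_inf_eq]
  exact finrank_bot K V

theorem cmult_le (χ : J → K) (α : K) : cmult F T χ α ≤ finrank K (F.maxGenEigenspace α) :=
  Submodule.finrank_mono inf_le_right

end

end H61Eq
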