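import Mathlib

/-!
# Newton polygons over a field with a nonarchimedean absolute value

The multiset `s` consists of the roots of a monic polynomial.
-/

set_option autoImplicit false

open Polynomial

namespace H61Eq

variable {L : Type*} [Field L] (v : AbsoluteValue L ℝ)

/-- the number of the elements of `s` of absolute value `r` -/
noncomputable def cnt (s : Multiset L) (r : ℝ) : ℕ := by
  classical exact (s.filter fun z => v z = r).card

/-- the Gauss norm of a product of linear factors -/
theorem gauss_prod (hna : IsNonarchimedean v) {R : ℝ} (hR : 0 < R) (s : Multiset L) :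
    (s.map fun b => X - C b).prod.gaussNorm v R = (s.map fun b => max R (v b)).prod := by
  induction s using Multiset.induction_on with
  | empty =>
    rw [Multiset.map_zero, Multiset.map_zero, Multiset.prod_zero, Multiset.prod_zero, ← C_1,
      gaussNorm_C, map_one]
  | cons b s ih =>
    rw [Multiset.map_cons, Multiset.prod_cons, Multiset.map_cons, Multiset.prod_cons,
      gaussNorm_mul hna hR, ih]
    congr 1
    apply le_antisymm
    · obtain ⟨i, hi⟩ := exists_eq_gaussNorm v R (X - C b)
      rw [hi]
      rcases i with _ | _ | i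
      · simp
      · simp [coeff_X]
      · have : (X - C b : L[X]).coeff (i + 1 + 1) = 0 := by
          rw [coeff_sub, coeff_X, coeff_C]
          simp
        rw [this]
        simp [hR.le]
    · apply max_le
      · have := le_gaussNorm v hR.le (p := X - C b) 1
        simpa using this
      · have := le_gaussNorm v hR.le (p := X - C b) 0
        simpa using this

/-- a vertex of the Newton polygon: if no root has its absolute value in `(r, r')` then the
product of the absolute values of the roots of absolute value `≥ r'` is that of a coefficient -/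
theorem vertex (hna : IsNonarchimedean v) {r r' : ℝ} (hr : 0 ≤ r) (hrr : r < r') (s : Multiset L)
    (hs : ∀ z ∈ s, v z ≤ r ∨ r' ≤ v z) :
    ∃ i, v ((s.map fun b => X - C b).prod.coeff i) =
      ((s.map fun b => if v b ≤ r then 1 else v b).prod) := by
  classical
  set E := (s.map fun b => X - C b).prod with hE
  set B := (s.filter fun b => v b ≤ r).card with hB
  set Cc := (s.map fun b => if v b ≤ r then 1 else v b).prod with hC
  have hCpos : 0 < Cc := by
    rw [hC]
    apply Multiset.prod_pos
    intro x hx
    obtain ⟨b, hb, rfl⟩ := Multiset.mem_map.1 hx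
    split_ifs with h
    · exact one_pos
    · push Not at h; linarith
  -- the Gauss norm at the radii in between
  have key : ∀ R, r < R → R < r' → E.gaussNorm v R = R ^ B * Cc := by
    intro R h1 h2
    rw [hE, gauss_prod v hna (by linarith), hC, hB]
    have : ∀ t : Multiset L, (∀ z ∈ t, v z ≤ r ∨ r' ≤ v z) →
        (t.map fun b => max R (v b)).prod =
          R ^ (t.filter fun b => v b ≤ r).card * (t.map fun b => if v b ≤ r then 1 else v b).prod := by
      intro t
      induction t using Multiset.induction_on with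
      | empty => simp
      | cons b t ih =>
        intro ht
        rw [Multiset.map_cons, Multiset.prod_cons, ih fun z hz => ht z (Multiset.mem_cons_of_mem hz),
          Multiset.map_cons, Multiset.prod_cons]
        by_cases h : v b ≤ r
        · rw [Multiset.filter_cons_of_pos (p := fun b => v b ≤ r) _ h, Multiset.card_cons,
            if_pos h, max_eq_left (by linarith), pow_succ]
          ring
        · have h' : r' ≤ v b := (ht b (Multiset.mem_cons_self _ _)).resolve_left h
          rw [Multiset.filter_cons_of_neg (p := fun b => v b ≤ r) _ h, if_neg h,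
            max_eq_right (by linarith)]
          ring
    exact this s hs
  -- the index which attains it
  have hidx : ∀ R, ∃ i, r < R → R < r' → i ≤ E.natDegree ∧ R ^ B * Cc = v (E.coeff i) * R ^ i := by
    intro R
    by_cases h1 : r < R
    · by_cases h2 : R < r'
      · obtain ⟨i, hi⟩ := exists_eq_gaussNorm v R E
        refine ⟨i, fun _ _ => ⟨?_, by rw [← key R h1 h2, hi]⟩⟩
        by_contra hlt
        push Not at hlt
        rw [coeff_eq_zero_of_natDegree_lt hlt, map_zero, zero_mul, key R h1 h2] at hi
        have : 0 < R ^ B * Cc := mul_pos (pow_pos (by linarith) _) hCpos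
        linarith
      · exact ⟨0, fun _ h => absurd h h2⟩
    · exact ⟨0, fun h => absurd h h1⟩
  choose idx hidx using hidx
  -- two radii with the same index
  obtain ⟨R₁, hR₁, R₂, hR₂, hne, heq⟩ : ∃ R₁ ∈ Set.Ioo r r', ∃ R₂ ∈ Set.Ioo r r', R₁ ≠ R₂ ∧
      idx R₁ = idx R₂ := by
    have hinf : (Set.Ioo r r').Infinite := Set.Ioo_infinite hrr
    have hmaps : Set.MapsTo idx (Set.Ioo r r') (Set.Iic E.natDegree) := by
      intro R hR
      exact (hidx R hR.1 hR.2).1
    obtain ⟨x, hx, y, hy, hxy, h⟩ :=
      hinf.exists_ne_map_eq_of_mapsTo hmaps (Set.finite_Iic _)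
    exact ⟨x, hx, y, hy, hxy, h⟩
  obtain ⟨-, e1⟩ := hidx R₁ hR₁.1 hR₁.2
  obtain ⟨-, e2⟩ := hidx R₂ hR₂.1 hR₂.2
  rw [← heq] at e2
  set i := idx R₁ with hi
  have p1 : 0 < R₁ := lt_of_le_of_lt hr hR₁.1
  have p2 : 0 < R₂ := lt_of_le_of_lt hr hR₂.1
  have hvi : 0 < v (E.coeff i) := by
    have h0 : 0 < R₁ ^ B * Cc := mul_pos (pow_pos p1 _) hCpos
    rw [e1] at h0
    exact (pos_iff_pos_of_mul_pos h0).2 (pow_pos p1 _)
  -- cross multiplication
  have e3 : R₁ ^ B * R₂ ^ i = R₂ ^ B * R₁ ^ i := by
    have h3 : (R₁ ^ B * R₂ ^ i) * (Cc * v (E.coeff i)) = (R₂ ^ B * R₁ ^ i) * (Cc * v (E.coeff i)) := by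
      calc (R₁ ^ B * R₂ ^ i) * (Cc * v (E.coeff i))
          = (R₁ ^ B * Cc) * (v (E.coeff i) * R₂ ^ i) := by ring
        _ = (v (E.coeff i) * R₁ ^ i) * (R₂ ^ B * Cc) := by rw [e1, ← e2]
        _ = (R₂ ^ B * R₁ ^ i) * (Cc * v (E.coeff i)) := by ring
    exact mul_right_cancel₀ (mul_pos hCpos hvi).ne' h3
  have hBi : i = B := by
    have p3 : 0 < R₁ / R₂ := div_pos p1 p2
    have h4 : (R₁ / R₂) ^ B = (R₁ / R₂) ^ i := by
      rw [div_pow, div_pow, div_eq_div_iff (pow_pos p2 _).ne' (pow_pos p2 _).ne', e3]
      ring
    have h5 : R₁ / R₂ ≠ 1 := by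
      intro h
      rw [div_eq_one_iff_eq p2.ne'] at h
      exact hne h
    exact (pow_right_injective₀ p3 h5 h4).symm
  refine ⟨i, ?_⟩
  rw [hBi] at e1 ⊢
  have h6 : R₁ ^ B * Cc = R₁ ^ B * v (E.coeff B) := by rw [e1]; ring
  exact (mul_left_cancel₀ (pow_pos p1 _).ne' h6).symm

end H61Eq
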