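import Pool.Agent.H61Eq.NP

/-!
# Multiplicities and Newton polygons
-/

set_option autoImplicit false

open Polynomial

namespace H61Eq

variable {L : Type*} [Field L] (v : AbsoluteValue L ℝ)

theorem cnt_add (s t : Multiset L) (r : ℝ) : cnt v (s + t) r = cnt v s r + cnt v t r := by
  unfold cnt
  rw [Multiset.filter_add, Multiset.card_add]

theorem cnt_nsmul (m : ℕ) (s : Multiset L) (r : ℝ) : cnt v (m • s) r = m * cnt v s r := by
  induction m with
  | zero => simp [cnt]
  | succ m ih => rw [succ_nsmul, cnt_add, ih]; ring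

theorem cnt_mono {s t : Multiset L} (h : s ≤ t) (r : ℝ) : cnt v s r ≤ cnt v t r := by
  unfold cnt
  exact Multiset.card_le_card (Multiset.filter_le_filter _ h)

theorem gap_above (s : Multiset L) (r : ℝ) : ∃ r', r < r' ∧ ∀ z ∈ s, v z ≤ r ∨ r' ≤ v z := by
  induction s using Multiset.induction_on with
  | empty => exact ⟨r + 1, by linarith, by simp⟩
  | cons b s ih =>
    obtain ⟨r', h1, h2⟩ := ih
    by_cases h : v b ≤ r
    · refine ⟨r', h1, fun z hz => ?_⟩
      rcases Multiset.mem_cons.1 hz with rfl | hz
      · exact Or.inl h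
      · exact h2 z hz
    · push Not at h
      refine ⟨min r' (v b), lt_min h1 h, fun z hz => ?_⟩
      rcases Multiset.mem_cons.1 hz with rfl | hz
      · exact Or.inr (min_le_right _ _)
      · exact (h2 z hz).imp id fun h' => (min_le_left _ _).trans h'

theorem gap_below (s : Multiset L) {r : ℝ} (hr : 0 < r) :
    ∃ r', 0 ≤ r' ∧ r' < r ∧ ∀ z ∈ s, v z ≤ r' ∨ r ≤ v z := by
  induction s using Multiset.induction_on with
  | empty => exact ⟨0, le_rfl, hr, by simp⟩
  | cons b s ih =>
    obtain ⟨r', h0, h1, h2⟩ := ih
    by_cases h : r ≤ v b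
    · refine ⟨r', h0, h1, fun z hz => ?_⟩
      rcases Multiset.mem_cons.1 hz with rfl | hz
      · exact Or.inr h
      · exact h2 z hz
    · push Not at h
      refine ⟨max r' (v b), le_max_of_le_left h0, max_lt h1 h, fun z hz => ?_⟩
      rcases Multiset.mem_cons.1 hz with rfl | hz
      · exact Or.inl (le_max_right _ _)
      · exact (h2 z hz).imp (fun h' => h'.trans (le_max_left _ _)) id

/-- the product over the roots of absolute value `≥ r` is `r ^ n` times that over the roots of
absolute value `> r` -/
theorem prod_split (s : Multiset L) {r r' : ℝ} (hr' : r' < r)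
    (hs : ∀ z ∈ s, v z ≤ r' ∨ r ≤ v z) :
    (s.map fun b => if v b ≤ r' then 1 else v b).prod =
      r ^ cnt v s r * (s.map fun b => if v b ≤ r then 1 else v b).prod := by
  classical
  induction s using Multiset.induction_on with
  | empty => simp [cnt]
  | cons b s ih =>
    have ih' := ih fun z hz => hs z (Multiset.mem_cons_of_mem hz)
    rw [Multiset.map_cons, Multiset.prod_cons, ih', Multiset.map_cons, Multiset.prod_cons]
    have hc : cnt v (b ::ₘ s) r = (if v b = r then 1 else 0) + cnt v s r := by
      unfold cnt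
      by_cases h : v b = r
      · rw [Multiset.filter_cons_of_pos (p := fun z => v z = r) _ h, Multiset.card_cons, if_pos h]
        ring
      · rw [Multiset.filter_cons_of_neg (p := fun z => v z = r) _ h, if_neg h]
        ring
    rw [hc]
    rcases hs b (Multiset.mem_cons_self _ _) with h | h
    · have h1 : v b ≤ r := by linarith
      have h2 : v b ≠ r := by linarith
      rw [if_pos h, if_pos h1, if_neg h2, zero_add, one_mul, one_mul]
    · have h0 : ¬ v b ≤ r' := by push Not; linarith
      by_cases h1 : v b = r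
      · rw [if_neg h0, if_pos h1.le, if_pos h1, pow_add, pow_one, h1]
        ring
      · have h2 : ¬ v b ≤ r := by
          intro h2
          exact h1 (le_antisymm h2 h)
        rw [if_neg h0, if_neg h2, if_neg h1, zero_add]
        ring

/-- **lattice points**: the number of the roots of absolute value `r` of a monic polynomial over
`k` is the length of an edge of a Newton polygon -/
theorem cnt_lattice (hna : IsNonarchimedean v) [IsAlgClosed L] {k : Type*} [Field k] (τ : k →+* L)
    {E : k[X]} (hE : E.Monic) {r : ℝ} (hr : 0 < r) :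
    ∃ x : k, x ≠ 0 ∧ v (τ x) = r ^ cnt v (E.map τ).roots r := by
  set s := (E.map τ).roots with hs
  have hprod : (s.map fun b => X - C b).prod = E.map τ := by
    have h1 := (IsAlgClosed.splits (E.map τ)).eq_prod_roots_of_monic (hE.map τ)
    rw [hs]; exact h1.symm
  obtain ⟨r', hr', h1⟩ := gap_above v s r
  obtain ⟨r'', hr0, hr'', h2⟩ := gap_below v s hr
  obtain ⟨i, hi⟩ := vertex v hna hr.le hr' s h1
  obtain ⟨j, hj⟩ := vertex v hna hr0 hr'' s h2
  rw [prod_split v s hr'' h2, ← hi, hprod, coeff_map, coeff_map] at hj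
  have hpos : 0 < v (τ (E.coeff i)) := by
    rw [hprod, coeff_map] at hi
    rw [hi]
    apply Multiset.prod_pos
    intro x hx
    obtain ⟨b, hb, rfl⟩ := Multiset.mem_map.1 hx
    split_ifs with h
    · exact one_pos
    · push Not at h; linarith
  have hi0 : E.coeff i ≠ 0 := by
    intro h
    rw [h, map_zero, map_zero] at hpos
    exact lt_irrefl _ hpos
  refine ⟨E.coeff j / E.coeff i, ?_, ?_⟩
  · apply div_ne_zero _ hi0
    intro h
    rw [h, map_zero, map_zero] at hj
    have : 0 < r ^ cnt v s r * v (τ (E.coeff i)) := mul_pos (pow_pos hr _) hpos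
    linarith
  · rw [map_div₀, map_div₀, hj, mul_div_assoc, div_self hpos.ne', mul_one]

/-- the Gauss norm of a monic polynomial -/
theorem gauss_roots (hna : IsNonarchimedean v) [IsAlgClosed L] {E : L[X]} (hE : E.Monic) {R : ℝ}
    (hR : 0 < R) : E.gaussNorm v R = (E.roots.map fun b => max R (v b)).prod := by
  have h1 := (IsAlgClosed.splits E).eq_prod_roots_of_monic hE
  conv_lhs => rw [h1]
  exact gauss_prod v hna hR _

theorem roots_pow_le {k : Type*} [Field k] (τ : k →+* L) {P E : k[X]} (hP : P.Monic) {m : ℕ}
    (h : E ^ m ∣ P) : m • (E.map τ).roots ≤ (P.map τ).roots := by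
  rw [← roots_pow, ← Polynomial.map_pow]
  exact roots.le_of_dvd (hP.map τ).ne_zero (Polynomial.map_dvd τ h)

/-- multiplicities: the number of the roots of `P` of absolute value `r` is at least `m` times that
of the roots of `E` -/
theorem cnt_pow_le {k : Type*} [Field k] (τ : k →+* L) {P E : k[X]} (hP : P.Monic) {m : ℕ}
    (h : E ^ m ∣ P) (r : ℝ) : m * cnt v (E.map τ).roots r ≤ cnt v (P.map τ).roots r := by
  rw [← cnt_nsmul]
  exact cnt_mono v (roots_pow_le τ hP h) r

theorem cnt_pos {s : Multiset L} {z : L} (hz : z ∈ s) : 0 < cnt v s (v z) := by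
  unfold cnt
  rw [Multiset.card_pos_iff_exists_mem]
  exact ⟨z, Multiset.mem_filter.2 ⟨hz, rfl⟩⟩

end H61Eq
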