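import Pool.Agent.H61Eq.NP2
import Pool.Agent.W534.FS1

/-!
# Places above `p` and multiplicities of eigenvalues
-/

set_option autoImplicit false

open Polynomial

namespace H61Eq

/-- the absolute value of the algebraic closure of `ℚ_p`, with `|p| = 1 / p` -/
noncomputable def vp (p : ℕ) [Fact p.Prime] : AbsoluteValue (PadicAlgCl p) ℝ :=
  IsAbsoluteValue.toAbsoluteValue (norm : PadicAlgCl p → ℝ)

theorem vp_apply (p : ℕ) [Fact p.Prime] (x : PadicAlgCl p) : vp p x = ‖x‖ := rfl

theorem vp_na (p : ℕ) [Fact p.Prime] : IsNonarchimedean (vp p) :=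
  PadicAlgCl.isNonarchimedean p

theorem norm_int (p : ℕ) [Fact p.Prime] (n : ℤ) : ‖(n : PadicAlgCl p)‖ = ‖(n : ℚ_[p])‖ := by
  have h := PadicAlgCl.norm_extends p (n : ℚ_[p])
  rw [← h]
  congr 1

theorem norm_p (p : ℕ) [Fact p.Prime] : ‖(p : PadicAlgCl p)‖ = (p : ℝ)⁻¹ := by
  have h := norm_int p (p : ℤ)
  rw [Int.cast_natCast, Int.cast_natCast] at h
  rw [h, Padic.norm_p]

theorem monic_gauss_ge {L : Type*} [Field L] (v : AbsoluteValue L ℝ) {E : L[X]} (hE : E.Monic)
    {R : ℝ} (hR : 0 < R) : R ^ E.natDegree ≤ E.gaussNorm v R := by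
  have := le_gaussNorm v hR.le (p := E) E.natDegree
  rw [hE.coeff_natDegree, map_one, one_mul] at this
  exact this

/-- if `α / q` is not integral then some conjugate of `α` in `ℚ̄_p` has absolute value `> 1 / q` -/
theorem exists_root {p a : ℕ} [hp : Fact p.Prime] {K : Type*} [Field K] [CharZero K] {α : K}
    (hα : IsIntegral ℤ α) (hni : ¬ IsIntegral ℤ (α / (p : K) ^ a)) :
    ∃ β : PadicAlgCl p, aeval β (minpoly ℤ α) = 0 ∧ ((p : ℝ) ^ a)⁻¹ < ‖β‖ := by
  by_contra hcon
  push Not at hcon
  apply hni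
  set E := minpoly ℤ α with hEdef
  have hEm : E.Monic := minpoly.monic hα
  apply W534.FS.integral_of_content hp.out hEm (minpoly.aeval ℤ α)
  have hp0 : (0 : ℝ) < p := by exact_mod_cast hp.out.pos
  set R : ℝ := ((p : ℝ) ^ a)⁻¹ with hR
  have hR0 : 0 < R := by positivity
  set E' : (PadicAlgCl p)[X] := E.map (Int.castRingHom (PadicAlgCl p)) with hE'
  have hE'm : E'.Monic := hEm.map _
  have hdeg : E'.natDegree = E.natDegree := hEm.natDegree_map _
  have h1 : E'.gaussNorm (vp p) R = R ^ E.natDegree := by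
    rw [gauss_roots (vp p) (vp_na p) hE'm hR0]
    have h2 : (E'.roots.map fun b => max R (vp p b)) = E'.roots.map fun _ => R := by
      apply Multiset.map_congr rfl
      intro b hb
      apply max_eq_left
      apply hcon
      have h3 := (mem_roots'.1 hb).2
      rw [IsRoot, hE', eval_map] at h3
      rw [aeval_def]
      exact h3
    rw [h2, Multiset.map_const', Multiset.prod_replicate, ← hdeg]
    congr 1
    exact ((IsAlgClosed.splits E').natDegree_eq_card_roots).symm
  rw [dvd_content_iff_C_dvd, C_dvd_iff_dvd_coeff]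
  intro i
  rw [W534.FS.sc_coeff]
  by_cases hi : E.natDegree < i
  · rw [coeff_eq_zero_of_natDegree_lt hi, zero_mul]; exact dvd_zero _
  push Not at hi
  have h2 : ‖((E.coeff i : ℤ) : ℚ_[p])‖ ≤ (p : ℝ) ^ (-((a * (E.natDegree - i) : ℕ) : ℤ)) := by
    have h3 := le_gaussNorm (vp p) hR0.le (p := E') i
    rw [h1, vp_apply, hE', coeff_map, Int.coe_castRingHom, norm_int] at h3
    have h4 : E.natDegree = (E.natDegree - i) + i := by omega
    rw [h4, pow_add] at h3
    have h5 := le_of_mul_le_mul_right h3 (pow_pos hR0 i)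
    refine h5.trans (le_of_eq ?_)
    rw [hR, inv_pow, ← pow_mul, zpow_neg, zpow_natCast]
  rw [Padic.norm_int_le_pow_iff_dvd] at h2
  have h3 : E.natDegree = (E.natDegree - i) + i := by omega
  rw [h3, pow_add]
  refine mul_dvd_mul ?_ dvd_rfl
  rw [← pow_mul]
  exact_mod_cast h2

/-- a place of the field of algebraic numbers of `K` at which `|α| > 1 / q` -/
theorem exists_place {p a : ℕ} [hp : Fact p.Prime] {K : Type*} [Field K] [CharZero K] {α : K}
    (hα : IsIntegral ℤ α) (hni : ¬ IsIntegral ℤ (α / (p : K) ^ a))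
    (k : IntermediateField ℚ K) [Algebra.IsAlgebraic ℚ k] :
    ∃ (τ : k →+* PadicAlgCl p) (β : PadicAlgCl p), eval₂ τ β (minpoly k α) = 0 ∧
      ((p : ℝ) ^ a)⁻¹ < ‖β‖ := by
  obtain ⟨β, hβ, hn⟩ := exists_root hα hni
  have hαQ : IsIntegral ℚ α := hα.tower_top
  have hmem : α ∈ algebraicClosure ℚ K := mem_algebraicClosure_iff'.2 hαQ
  set α' : algebraicClosure ℚ K := ⟨α, hmem⟩ with hα'
  have hint : ∀ s : algebraicClosure ℚ K, IsIntegral ℚ s := fun s =>
    (isIntegral_algebraMap_iff (algebraMap (algebraicClosure ℚ K) K).injective).1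
      (mem_algebraicClosure_iff'.1 s.2)
  have hy : aeval β (minpoly ℚ α') = 0 := by
    have h1 : minpoly ℚ α' = minpoly ℚ α := by
      have := minpoly.algebraMap_eq (A := ℚ) (algebraMap (algebraicClosure ℚ K) K).injective α'
      rw [← this]
      rfl
    have h2 : minpoly ℚ α = (minpoly ℤ α).map (algebraMap ℤ ℚ) :=
      minpoly.isIntegrallyClosed_eq_field_fractions' ℚ hα
    rw [h1, h2, aeval_map_algebraMap]
    exact hβ
  obtain ⟨φ, hφ⟩ := IntermediateField.exists_algHom_of_splits_of_aeval
    (F := ℚ) (E := algebraicClosure ℚ K) (K := PadicAlgCl p)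
    (fun s => ⟨hint s, IsAlgClosed.splits _⟩) hy
  -- the embedding of `k`
  have hk : ∀ x : k, (x : K) ∈ algebraicClosure ℚ K := by
    intro x
    rw [mem_algebraicClosure_iff']
    have : IsIntegral ℚ x := Algebra.IsIntegral.isIntegral x
    exact this.map (IsScalarTower.toAlgHom ℚ k K)
  let ι : k →+* algebraicClosure ℚ K :=
    { toFun := fun x => ⟨x, hk x⟩
      map_one' := rfl
      map_mul' := fun _ _ => rfl
      map_zero' := rfl
      map_add' := fun _ _ => rfl }
  refine ⟨(φ : algebraicClosure ℚ K →+* PadicAlgCl p).comp ι, β, ?_, hn⟩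
  have h1 : eval₂ ι α' (minpoly k α) = 0 := by
    apply (algebraMap (algebraicClosure ℚ K) K).injective
    rw [hom_eval₂, map_zero]
    have h2 : (algebraMap (algebraicClosure ℚ K) K).comp ι = algebraMap k K := rfl
    rw [h2]
    exact minpoly.aeval k α
  have h3 := congrArg (φ : algebraicClosure ℚ K →+* PadicAlgCl p) h1
  rw [hom_eval₂, map_zero] at h3
  rw [← hφ]
  exact h3

theorem gauss_pow {L : Type*} [Field L] {v : AbsoluteValue L ℝ} (hna : IsNonarchimedean v) {R : ℝ}
    (hR : 0 < R) (E : L[X]) (m : ℕ) : (E ^ m).gaussNorm v R = (E.gaussNorm v R) ^ m := by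
  induction m with
  | zero => rw [pow_zero, pow_zero, ← C_1, gaussNorm_C, map_one]
  | succ m ih => rw [pow_succ, gaussNorm_mul hna hR, ih, pow_succ]

/-- the multiplicity of a root and its minimal polynomial -/
theorem minpoly_pow_dvd {K : Type*} [Field K] [CharZero K] (k : IntermediateField ℚ K) {P : k[X]}
    (hP : P.Monic) {α : K} (hα : IsIntegral k α) :
    (minpoly k α) ^ (rootMultiplicity α (P.map (algebraMap k K))) ∣ P := by
  classical
  set E := minpoly k α with hE
  have hirr : Irreducible E := minpoly.irreducible hα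
  have hfin : FiniteMultiplicity E P := FiniteMultiplicity.of_not_isUnit hirr.not_isUnit hP.ne_zero
  obtain ⟨G, hG, hnd⟩ := hfin.exists_eq_pow_mul_and_not_dvd
  have hGz : aeval α G ≠ 0 := fun h => hnd (minpoly.dvd k α h)
  have hEm : E.Monic := minpoly.monic hα
  have hE1 : rootMultiplicity α (E.map (algebraMap k K)) ≤ 1 :=
    rootMultiplicity_le_one_of_separable (hirr.separable.map) α
  have hG0 : rootMultiplicity α (G.map (algebraMap k K)) = 0 := by
    apply rootMultiplicity_eq_zero
    intro h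
    apply hGz
    rw [IsRoot, eval_map] at h
    rw [aeval_def]
    exact h
  have hGne : G.map (algebraMap k K) ≠ 0 := by
    intro h
    apply hGz
    rw [← eval_map_algebraMap, h, eval_zero]
  have hle : rootMultiplicity α (P.map (algebraMap k K)) ≤ multiplicity E P := by
    conv_lhs => rw [hG]
    rw [Polynomial.map_mul, Polynomial.map_pow, rootMultiplicity_mul (mul_ne_zero
      (pow_ne_zero _ (hEm.map _).ne_zero) hGne), hG0, add_zero, ← count_roots, roots_pow,
      Multiset.count_nsmul, count_roots]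
    calc multiplicity E P * rootMultiplicity α (E.map (algebraMap k K))
        ≤ multiplicity E P * 1 := Nat.mul_le_mul_left _ hE1
      _ = multiplicity E P := mul_one _
  refine (pow_dvd_pow E hle).trans ?_
  exact ⟨G, hG⟩

/-- **the bound of the multiplicity of an eigenvalue `α` with `α / q` not integral** -/
theorem main {p a : ℕ} [hp : Fact p.Prime] {K : Type*} [Field K] [CharZero K]
    (k : IntermediateField ℚ K) [Algebra.IsAlgebraic ℚ k] {P : k[X]} (hP : P.Monic) {α : K}
    (hα : IsIntegral ℤ α) (hni : ¬ IsIntegral ℤ (α / (p : K) ^ a)) :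
    ∃ τ : k →+* PadicAlgCl p,
      (∃ r : ℝ, ((p : ℝ) ^ a)⁻¹ < r ∧ ∃ n : ℕ, 1 ≤ n ∧ (∃ x : k, x ≠ 0 ∧ ‖τ x‖ = r ^ n) ∧
        rootMultiplicity α (P.map (algebraMap k K)) * n ≤ cnt (vp p) (P.map τ).roots r) ∧
      (∃ y : k, 1 < ‖τ y‖ ∧
        ‖τ y‖ ^ rootMultiplicity α (P.map (algebraMap k K)) * (((p : ℝ) ^ a)⁻¹) ^ P.natDegree ≤
          (P.map τ).gaussNorm (vp p) ((p : ℝ) ^ a)⁻¹) := by
  obtain ⟨τ, β, hβ, hn⟩ := exists_place hα hni k
  have hαk : IsIntegral k α := hα.tower_top
  set E := minpoly k α with hE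
  have hEm : E.Monic := minpoly.monic hαk
  set m := rootMultiplicity α (P.map (algebraMap k K)) with hm
  have hdvd : E ^ m ∣ P := minpoly_pow_dvd k hP hαk
  have hp0 : (0 : ℝ) < p := by exact_mod_cast hp.out.pos
  set R : ℝ := ((p : ℝ) ^ a)⁻¹ with hR
  have hR0 : 0 < R := by positivity
  have hβr : β ∈ (E.map τ).roots := by
    rw [mem_roots (hEm.map τ).ne_zero, IsRoot, eval_map]
    exact hβ
  refine ⟨τ, ⟨‖β‖, hn, cnt (vp p) (E.map τ).roots ‖β‖, ?_, ?_, ?_⟩, ?_⟩
  · exact cnt_pos (vp p) hβr
  · exact cnt_lattice (vp p) (vp_na p) τ hEm (hR0.trans hn)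
  · exact cnt_pow_le (vp p) τ hP hdvd _
  · obtain ⟨i, hi⟩ := exists_eq_gaussNorm (vp p) R (E.map τ)
    have hgt : R ^ E.natDegree < (E.map τ).gaussNorm (vp p) R := by
      rw [gauss_roots (vp p) (vp_na p) (hEm.map τ) hR0]
      obtain ⟨s, hs⟩ := Multiset.exists_cons_of_mem hβr
      have hcard : s.card + 1 = E.natDegree := by
        have h1 := (IsAlgClosed.splits (E.map τ)).natDegree_eq_card_roots
        rw [hs, Multiset.card_cons, hEm.natDegree_map] at h1
        exact h1.symm
      rw [hs, Multiset.map_cons, Multiset.prod_cons, ← hcard, pow_succ']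
      have h2 : R ^ s.card ≤ (s.map fun b => max R (vp p b)).prod := by
        clear hs hcard
        induction s using Multiset.induction_on with
        | empty => simp
        | cons b s ih =>
          rw [Multiset.map_cons, Multiset.prod_cons, Multiset.card_cons, pow_succ']
          exact mul_le_mul (le_max_left _ _) ih (pow_nonneg hR0.le _)
            (le_trans hR0.le (le_max_left _ _))
      have h3 : R < max R (vp p β) := lt_max_of_lt_right hn
      calc R * R ^ s.card < max R (vp p β) * R ^ s.card :=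
            mul_lt_mul_of_pos_right h3 (pow_pos hR0 _)
        _ ≤ _ := mul_le_mul_of_nonneg_left h2 (le_trans hR0.le (le_max_left _ _))
    rw [hi] at hgt
    have hiE : i ≤ E.natDegree := by
      by_contra hlt
      push Not at hlt
      rw [coeff_map, coeff_eq_zero_of_natDegree_lt hlt, map_zero, map_zero, zero_mul] at hgt
      have := pow_pos hR0 E.natDegree
      linarith
    have hpk : ((p : k) ^ a) ≠ 0 := pow_ne_zero _ (by exact_mod_cast hp.out.ne_zero)
    refine ⟨E.coeff i / ((p : k) ^ a) ^ (E.natDegree - i), ?_, ?_⟩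
    · rw [map_div₀, norm_div, map_pow, map_pow, map_natCast, norm_pow, norm_pow, norm_p,
        lt_div_iff₀ (by positivity), one_mul]
      have h4 : ((p : ℝ)⁻¹ ^ a) = R := by rw [hR, inv_pow]
      rw [h4]
      have h5 : E.natDegree = (E.natDegree - i) + i := by omega
      rw [h5, pow_add, coeff_map, vp_apply] at hgt
      exact lt_of_mul_lt_mul_right hgt (pow_nonneg hR0.le i)
    · obtain ⟨G, hG⟩ := hdvd
      have hGm : G.Monic := by
        rw [hG] at hP
        exact (hEm.pow m).of_mul_monic_left hP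
      have h6 : (P.map τ).gaussNorm (vp p) R =
          ((E.map τ).gaussNorm (vp p) R) ^ m * (G.map τ).gaussNorm (vp p) R := by
        conv_lhs => rw [hG]
        rw [Polynomial.map_mul, gaussNorm_mul (vp_na p) hR0, Polynomial.map_pow,
          gauss_pow (vp_na p) hR0]
      rw [h6]
      have h7 := monic_gauss_ge (vp p) (hGm.map τ) hR0
      rw [hGm.natDegree_map] at h7
      have h8 : P.natDegree = m * E.natDegree + G.natDegree := by
        conv_lhs => rw [hG]
        rw [(hEm.pow m).natDegree_mul hGm, hEm.natDegree_pow]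
      rw [h8, pow_add, pow_mul', ← mul_assoc]
      refine mul_le_mul ?_ h7 (pow_nonneg hR0.le _)
        (pow_nonneg (gaussNorm_nonneg _ _ hR0.le) _)
      rw [← mul_pow]
      apply le_of_eq
      congr 1
      rw [hi, map_div₀, norm_div, map_pow, map_pow, map_natCast, norm_pow, norm_pow, norm_p]
      have h4 : ((p : ℝ)⁻¹ ^ a) = R := by rw [hR, inv_pow]
      rw [h4, coeff_map, vp_apply]
      have h5 : R ^ E.natDegree = R ^ (E.natDegree - i) * R ^ i := by
        rw [← pow_add]; congr 1; omega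
      rw [h5]
      field_simp

end H61Eq
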