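import Pool.Agent.H61Eq.Place

/-!
# Places above `p` and multiplicities of eigenvalues, any weight
-/

set_option autoImplicit false

open Polynomial

namespace H61Eq

theorem minpoly_coe {K : Type*} [Field K] [CharZero K] {α : K} (hα : IsIntegral ℤ α)
    (hmem : α ∈ algebraicClosure ℚ K) :
    minpoly ℚ (⟨α, hmem⟩ : algebraicClosure ℚ K) = (minpoly ℤ α).map (algebraMap ℤ ℚ) := by
  have h1 : minpoly ℚ (⟨α, hmem⟩ : algebraicClosure ℚ K) = minpoly ℚ α := by
    have := minpoly.algebraMap_eq (A := ℚ) (algebraMap (algebraicClosure ℚ K) K).injective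
      (⟨α, hmem⟩ : algebraicClosure ℚ K)
    rw [← this]
    rfl
  rw [h1]
  exact minpoly.isIntegrallyClosed_eq_field_fractions' ℚ hα

theorem integral_alg {K : Type*} [Field K] [CharZero K] (s : algebraicClosure ℚ K) :
    IsIntegral ℚ s :=
  (isIntegral_algebraMap_iff (algebraMap (algebraicClosure ℚ K) K).injective).1
    (mem_algebraicClosure_iff'.1 s.2)

/-- embeddings of the algebraic numbers with a given value at an integral element -/
theorem exists_emb {K : Type*} [Field K] [CharZero K] {W : Type*} [Field W] [CharZero W]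
    [IsAlgClosed W] {γ : K} (hγ : IsIntegral ℤ γ) {β : W} (hβ : aeval β (minpoly ℤ γ) = 0) :
    ∃ φ : algebraicClosure ℚ K →+* W,
      φ ⟨γ, mem_algebraicClosure_iff'.2 (hγ.tower_top : IsIntegral ℚ γ)⟩ = β := by
  have hmem : γ ∈ algebraicClosure ℚ K :=
    mem_algebraicClosure_iff'.2 (hγ.tower_top : IsIntegral ℚ γ)
  have hy : aeval β (minpoly ℚ (⟨γ, hmem⟩ : algebraicClosure ℚ K)) = 0 := by
    rw [minpoly_coe hγ hmem, aeval_map_algebraMap]
    exact hβ
  obtain ⟨φ, hφ⟩ := IntermediateField.exists_algHom_of_splits_of_aeval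
    (F := ℚ) (E := algebraicClosure ℚ K) (K := W)
    (fun s => ⟨integral_alg s, IsAlgClosed.splits _⟩) hy
  exact ⟨(φ : algebraicClosure ℚ K →+* W), hφ⟩

/-- if the complex conjugates of `α` have absolute value `q ^ (w / 2)` and `α ^ 2 / q ^ w` is not a
root of unity then it is not integral -/
theorem not_integral_sq {p b : ℕ} (hp : p.Prime) {K : Type*} [Field K] [CharZero K] {P : ℤ[X]}
    (hP : P.Monic) (hw : ∀ z : ℂ, aeval z P = 0 → ‖z‖ ^ 2 = (p : ℝ) ^ b) {α : K}
    (hz : aeval α P = 0) (hn : ∀ m, 0 < m → (α ^ 2) ^ m ≠ ((p : K) ^ b) ^ m) :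
    ¬ IsIntegral ℤ (α ^ 2 / (p : K) ^ b) := by
  have hα : IsIntegral ℤ α := ⟨P, hP, by rwa [aeval_def] at hz⟩
  have hα2 : IsIntegral ℤ (α ^ 2) := hα.pow 2
  apply W534.FS.not_integral hp (P := minpoly ℤ (α ^ 2)) _ (minpoly.aeval ℤ _) hn
  intro z' hz'
  obtain ⟨φ, hφ⟩ := exists_emb hα2 hz'
  set α' : algebraicClosure ℚ K := ⟨α, mem_algebraicClosure_iff'.2 hα.tower_top⟩ with hα'
  have h1 : φ α' ^ 2 = z' := by
    rw [← hφ, ← map_pow]
    rfl
  have h2 : aeval (φ α') P = 0 := by
    have h3 : eval₂ (Int.castRingHom (algebraicClosure ℚ K)) α' P = 0 := by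
      apply (algebraMap (algebraicClosure ℚ K) K).injective
      rw [hom_eval₂, map_zero]
      have h4 : (algebraMap (algebraicClosure ℚ K) K).comp
          (Int.castRingHom (algebraicClosure ℚ K)) = algebraMap ℤ K := RingHom.ext_int _ _
      rw [h4]
      exact hz
    have h5 := congrArg φ h3
    rw [hom_eval₂, map_zero] at h5
    rw [aeval_def]
    have h6 : φ.comp (Int.castRingHom (algebraicClosure ℚ K)) = algebraMap ℤ ℂ :=
      RingHom.ext_int _ _
    rw [← h6]
    exact h5
  rw [← h1, norm_pow]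
  exact hw _ h2

/-- the embedding of a field of algebraic numbers in the field of all algebraic numbers -/
theorem exists_incl {K : Type*} [Field K] [CharZero K] (k : IntermediateField ℚ K)
    [Algebra.IsAlgebraic ℚ k] : ∃ ι : k →+* algebraicClosure ℚ K,
      (algebraMap (algebraicClosure ℚ K) K).comp ι = algebraMap k K := by
  have hk : ∀ x : k, (x : K) ∈ algebraicClosure ℚ K := by
    intro x
    rw [mem_algebraicClosure_iff']
    have : IsIntegral ℚ x := Algebra.IsIntegral.isIntegral x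
    exact this.map (IsScalarTower.toAlgHom ℚ k K)
  exact ⟨{ toFun := fun x => ⟨x, hk x⟩
           map_one' := rfl
           map_mul' := fun _ _ => rfl
           map_zero' := rfl
           map_add' := fun _ _ => rfl }, rfl⟩

/-- a place at which `|α| ^ 2 > 1 / p ^ b` -/
theorem exists_place_sq {p b : ℕ} [hp : Fact p.Prime] {K : Type*} [Field K] [CharZero K] {α : K}
    (hα : IsIntegral ℤ α) (hni : ¬ IsIntegral ℤ (α ^ 2 / (p : K) ^ b))
    (k : IntermediateField ℚ K) [Algebra.IsAlgebraic ℚ k] :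
    ∃ (τ : k →+* PadicAlgCl p) (β : PadicAlgCl p), eval₂ τ β (minpoly k α) = 0 ∧
      ((p : ℝ) ^ b)⁻¹ < ‖β‖ ^ 2 := by
  obtain ⟨β', hβ', hn⟩ := exists_root (hα.pow 2) hni
  obtain ⟨φ, hφ⟩ := exists_emb (hα.pow 2) hβ'
  set α' : algebraicClosure ℚ K := ⟨α, mem_algebraicClosure_iff'.2 hα.tower_top⟩ with hα'
  obtain ⟨ι, hι⟩ := exists_incl k
  refine ⟨φ.comp ι, φ α', ?_, ?_⟩
  · have h1 : eval₂ ι α' (minpoly k α) = 0 := by
      apply (algebraMap (algebraicClosure ℚ K) K).injective
      rw [hom_eval₂, map_zero, hι]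
      exact minpoly.aeval k α
    have h3 := congrArg φ h1
    rw [hom_eval₂, map_zero] at h3
    exact h3
  · have h1 : φ α' ^ 2 = β' := by
      rw [← hφ, ← map_pow]
      rfl
    rw [← norm_pow, h1]
    exact hn

/-- the roots at a place of the minimal polynomial of an eigenvalue: an edge of the Newton polygon -/
theorem edge {p : ℕ} [hp : Fact p.Prime] {K : Type*} [Field K] [CharZero K]
    (k : IntermediateField ℚ K) {P : k[X]} (hP : P.Monic) {α : K} (hα : IsIntegral k α)
    (hα0 : α ≠ 0) (τ : k →+* PadicAlgCl p) {β : PadicAlgCl p}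
    (hβ : eval₂ τ β (minpoly k α) = 0) :
    0 < ‖β‖ ∧ ∃ n : ℕ, 1 ≤ n ∧ (∃ x : k, x ≠ 0 ∧ ‖τ x‖ = ‖β‖ ^ n) ∧
      rootMultiplicity α (P.map (algebraMap k K)) * n ≤ cnt (vp p) (P.map τ).roots ‖β‖ := by
  set E := minpoly k α with hE
  have hEm : E.Monic := minpoly.monic hα
  have hdvd : E ^ (rootMultiplicity α (P.map (algebraMap k K))) ∣ P := minpoly_pow_dvd k hP hα
  have hβ0 : 0 < ‖β‖ := by
    rw [norm_pos_iff]
    rintro rfl
    rw [eval₂_at_zero, map_eq_zero] at hβ
    rw [hE, minpoly.coeff_zero_eq_zero hα] at hβ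
    exact hα0 hβ
  have hβr : β ∈ (E.map τ).roots := by
    rw [mem_roots (hEm.map τ).ne_zero, IsRoot, eval_map]
    exact hβ
  exact ⟨hβ0, cnt (vp p) (E.map τ).roots ‖β‖, cnt_pos (vp p) hβr,
    cnt_lattice (vp p) (vp_na p) τ hEm hβ0, cnt_pow_le (vp p) τ hP hdvd _⟩

/-- there is a root at every place -/
theorem exists_root_at {p : ℕ} [hp : Fact p.Prime] {K : Type*} [Field K] [CharZero K]
    (k : IntermediateField ℚ K) {α : K} (hα : IsIntegral k α) (τ : k →+* PadicAlgCl p) :
    ∃ β : PadicAlgCl p, eval₂ τ β (minpoly k α) = 0 := by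
  have hdeg : ((minpoly k α).map τ).degree ≠ 0 := by
    rw [degree_map]
    exact (minpoly.degree_pos hα).ne'
  obtain ⟨β, hβ⟩ := IsAlgClosed.exists_root _ hdeg
  exact ⟨β, by rw [← eval_map]; exact hβ⟩

/-- even weight `2 u`: the excess over the slope `u` -/
theorem excess {p a u : ℕ} [hp : Fact p.Prime] {K : Type*} [Field K] [CharZero K]
    (k : IntermediateField ℚ K) {P : k[X]} (hP : P.Monic) {α : K}
    (hα : IsIntegral k α) (τ : k →+* PadicAlgCl p) {β : PadicAlgCl p}
    (hβ : eval₂ τ β (minpoly k α) = 0) (hn : ((p : ℝ) ^ (a * u))⁻¹ < ‖β‖) :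
    ∃ y : k, 1 < ‖τ y‖ ∧
      ‖τ y‖ ^ rootMultiplicity α (P.map (algebraMap k K)) *
          (((p : ℝ) ^ (a * u))⁻¹) ^ P.natDegree ≤
        (P.map τ).gaussNorm (vp p) ((p : ℝ) ^ (a * u))⁻¹ := by
  set E := minpoly k α with hE
  have hEm : E.Monic := minpoly.monic hα
  set m := rootMultiplicity α (P.map (algebraMap k K)) with hm
  have hdvd : E ^ m ∣ P := minpoly_pow_dvd k hP hα
  have hp0 : (0 : ℝ) < p := by exact_mod_cast hp.out.pos
  set R : ℝ := ((p : ℝ) ^ (a * u))⁻¹ with hR
  have hR0 : 0 < R := by positivity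
  have hβr : β ∈ (E.map τ).roots := by
    rw [mem_roots (hEm.map τ).ne_zero, IsRoot, eval_map]
    exact hβ
  obtain ⟨i, hi⟩ := exists_eq_gaussNorm (vp p) R (E.map τ)
  have hgt : R ^ E.natDegree < (E.map τ).gaussNorm (vp p) R := by
    rw [gauss_roots (vp p) (vp_na p) (hEm.map τ) hR0]
    obtain ⟨s, hs⟩ := Multiset.exists_cons_of_mem hβr
    have hcard : s.card + 1 = E.natDegree := by
      have h1 := (IsAlgClosed.splits (E.map τ)).natDegree_eq_card_roots
      rw [hs, Multiset.card_cons, hEm.natDegree_map] at h1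
      exact h1.symm
    rw [hs, Multiset.map_cons, Multiset.prod_cons, ← hcard, pow_succ']
    have h2 : R ^ s.card ≤ (s.map fun b => max R (vp p b)).prod := by
      clear hs hcard
      induction s using Multiset.induction_on with
      | empty => simp
      | cons b s ih =>
        rw [Multiset.map_cons, Multiset.prod_cons, Multiset.card_cons, pow_succ']
        exact mul_le_mul (le_max_left _ _) ih (pow_nonneg hR0.le _)
          (le_trans hR0.le (le_max_left _ _))
    have h3 : R < max R (vp p β) := lt_max_of_lt_right hn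
    calc R * R ^ s.card < max R (vp p β) * R ^ s.card :=
          mul_lt_mul_of_pos_right h3 (pow_pos hR0 _)
      _ ≤ _ := mul_le_mul_of_nonneg_left h2 (le_trans hR0.le (le_max_left _ _))
  rw [hi] at hgt
  have hiE : i ≤ E.natDegree := by
    by_contra hlt
    push Not at hlt
    rw [coeff_map, coeff_eq_zero_of_natDegree_lt hlt, map_zero, map_zero, zero_mul] at hgt
    have := pow_pos hR0 E.natDegree
    linarith
  have hpk : ((p : k) ^ (a * u)) ≠ 0 := pow_ne_zero _ (by exact_mod_cast hp.out.ne_zero)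
  refine ⟨E.coeff i / ((p : k) ^ (a * u)) ^ (E.natDegree - i), ?_, ?_⟩
  · rw [map_div₀, norm_div, map_pow, map_pow, map_natCast, norm_pow, norm_pow, norm_p,
      lt_div_iff₀ (by positivity), one_mul]
    have h4 : ((p : ℝ)⁻¹ ^ (a * u)) = R := by rw [hR, inv_pow]
    rw [h4]
    have h5 : E.natDegree = (E.natDegree - i) + i := by omega
    rw [h5, pow_add, coeff_map, vp_apply] at hgt
    exact lt_of_mul_lt_mul_right hgt (pow_nonneg hR0.le i)
  · obtain ⟨G, hG⟩ := hdvd
    have hGm : G.Monic := by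
      rw [hG] at hP
      exact (hEm.pow m).of_mul_monic_left hP
    have h6 : (P.map τ).gaussNorm (vp p) R =
        ((E.map τ).gaussNorm (vp p) R) ^ m * (G.map τ).gaussNorm (vp p) R := by
      conv_lhs => rw [hG]
      rw [Polynomial.map_mul, gaussNorm_mul (vp_na p) hR0, Polynomial.map_pow,
        gauss_pow (vp_na p) hR0]
    rw [h6]
    have h7 := monic_gauss_ge (vp p) (hGm.map τ) hR0
    rw [hGm.natDegree_map] at h7
    have h8 : P.natDegree = m * E.natDegree + G.natDegree := by
      conv_lhs => rw [hG]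
      rw [(hEm.pow m).natDegree_mul hGm, hEm.natDegree_pow]
    rw [h8, pow_add, pow_mul' R m, ← mul_assoc]
    refine mul_le_mul ?_ h7 (pow_nonneg hR0.le _)
      (pow_nonneg (gaussNorm_nonneg _ _ hR0.le) _)
    rw [← mul_pow]
    apply le_of_eq
    congr 1
    rw [hi, map_div₀, norm_div, map_pow, map_pow, map_natCast, norm_pow, norm_pow, norm_p]
    have h4 : ((p : ℝ)⁻¹ ^ (a * u)) = R := by rw [hR, inv_pow]
    rw [h4, coeff_map, vp_apply]
    have h5 : R ^ E.natDegree = R ^ (E.natDegree - i) * R ^ i := by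
      rw [← pow_add]; congr 1; omega
    rw [h5]
    field_simp

end H61Eq
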